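import Pool.Agent.QSB.StmtsR

set_option autoImplicit false

/-! Squad QSB, row ALB. -/

namespace Pool.Agent.QSB.H20

open Matrix Finset Pool.Agent.QSX Pool.Agent.QSB

/-- the bracket in `n` -/
def br (X : Dat) (x y : X.n) : X.n := ⟨x.1 * y.1 - y.1 * x.1, X.lie x x.2 y y.2⟩

theorem br_add_left (X : Dat) (x x' y : X.n) : br X (x + x') y = br X x y + br X x' y := by
  apply Subtype.ext
  change (x.1 + x'.1) * y.1 - y.1 * (x.1 + x'.1) =
    (x.1 * y.1 - y.1 * x.1) + (x'.1 * y.1 - y.1 * x'.1)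
  noncomm_ring

theorem br_smul_left (X : Dat) (c : ℝ) (x y : X.n) : br X (c • x) y = c • br X x y := by
  apply Subtype.ext
  change (c • x.1) * y.1 - y.1 * (c • x.1) = c • (x.1 * y.1 - y.1 * x.1)
  rw [Matrix.smul_mul, Matrix.mul_smul, smul_sub]

theorem br_zero_left (X : Dat) (y : X.n) : br X 0 y = 0 := by
  apply Subtype.ext
  change (0 : Matrix (Fin X.m) (Fin X.m) ℝ) * y.1 - y.1 * 0 = 0
  rw [Matrix.zero_mul, Matrix.mul_zero, sub_zero]

theorem br_swap (X : Dat) (x y : X.n) : br X y x = - br X x y := by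
  apply Subtype.ext
  change y.1 * x.1 - x.1 * y.1 = - (x.1 * y.1 - y.1 * x.1)
  rw [neg_sub]

/-- the root vectors as elements of `n` -/
def RS (X : Dat) : Set X.n := {z | ∃ ρ, RtV X ρ z.1}

theorem span_rs (X : Dat) (hS : Spn X) (x : X.n) : x ∈ Submodule.span ℝ (RS X) := by
  have hle : Submodule.span ℝ {z | ∃ ρ, RtV X ρ z} ≤ X.n := by
    rw [Submodule.span_le]
    rintro z ⟨ρ, hz⟩
    exact hz.1.1
  have key : ∀ (z : Matrix (Fin X.m) (Fin X.m) ℝ)
      (hz : z ∈ Submodule.span ℝ {z | ∃ ρ, RtV X ρ z}),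
      (⟨z, hle hz⟩ : X.n) ∈ Submodule.span ℝ (RS X) := by
    intro z hz
    refine Submodule.span_induction
      (p := fun z hz => (⟨z, hle hz⟩ : X.n) ∈ Submodule.span ℝ (RS X)) ?_ ?_ ?_ ?_ hz
    · intro z hz
      exact Submodule.subset_span hz
    · exact Submodule.zero_mem _
    · intro a b ha hb h1 h2
      exact Submodule.add_mem _ h1 h2
    · intro c a ha h1
      exact Submodule.smul_mem _ c h1
  exact key x.1 (hS x.1 x.2)

theorem alb (_bwt : BwtStmt) (trw : TrwStmt) (dlt : DltStmt) : AlbStmt := by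
  intro X Y hS hR hRR hD hrk hW
  obtain ⟨T, P, hTn, hPb, hTi, hPi, hst, hbr⟩ := hW
  obtain ⟨g, hg, hw⟩ := trw X Y T P hTn hPb hPi hst hrk
  refine ⟨T, P, hTn, hPb, hTi, hPi, ?_, hst⟩
  have hD' := dlt X Y T g hTn hTi hg hbr hw hR hRR hD
  -- root vectors
  have key : ∀ (ρ σ : X.b →ₗ[ℝ] ℝ) (x y : X.n), RtV X ρ x.1 → RtV X σ y.1 →
      T (br X x y) = T x * T y - T y * T x := by
    intro ρ σ x y hx hy
    by_cases hn : NPr ρ σ
    · exact hbr ρ σ hn x y hx.1 hy.1
    · unfold NPr at hn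
      rw [not_and_or] at hn
      push Not at hn
      rcases hn with ⟨c, hc⟩ | ⟨c, hc⟩
      · -- `ρ = c • σ`
        rw [hc] at hx
        have h1 := hD' σ c y x hy hx
        have h2 : T (br X y x) = T y * T x - T x * T y := h1
        rw [br_swap, map_neg] at h2
        rw [← neg_neg (T (br X x y)), h2, neg_sub]
      · rw [hc] at hy
        exact hD' ρ c x y hx hy
  -- left induction
  have key2 : ∀ (σ : X.b →ₗ[ℝ] ℝ) (x y : X.n), RtV X σ y.1 →
      T (br X x y) = T x * T y - T y * T x := by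
    intro σ x y hy
    refine Submodule.span_induction
      (p := fun x _ => T (br X x y) = T x * T y - T y * T x) ?_ ?_ ?_ ?_ (span_rs X hS x)
    · rintro z ⟨ρ, hz⟩
      exact key ρ σ z y hz hy
    · rw [br_zero_left, map_zero, Matrix.zero_mul, Matrix.mul_zero, sub_zero]
    · intro a b _ _ h1 h2
      rw [br_add_left, map_add, map_add, h1, h2]
      noncomm_ring
    · intro c a _ h1
      rw [br_smul_left, map_smul, map_smul, h1, Matrix.smul_mul, Matrix.mul_smul, smul_sub]
  intro x y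
  change T (br X x y) = T x * T y - T y * T x
  have key3 : T (br X y x) = T y * T x - T x * T y := by
    refine Submodule.span_induction
      (p := fun y _ => T (br X y x) = T y * T x - T x * T y) ?_ ?_ ?_ ?_ (span_rs X hS y)
    · rintro z ⟨ρ, hz⟩
      have h2 := key2 ρ x z hz
      rw [br_swap, map_neg, h2, neg_sub]
    · rw [br_zero_left, map_zero, Matrix.zero_mul, Matrix.mul_zero, sub_zero]
    · intro a b _ _ h1 h2
      rw [br_add_left, map_add, map_add, h1, h2]
      noncomm_ring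
    · intro c a _ h1
      rw [br_smul_left, map_smul, map_smul, h1, Matrix.smul_mul, Matrix.mul_smul, smul_sub]
  rw [br_swap, map_neg] at key3
  rw [← neg_neg (T (br X x y)), key3, neg_sub]

end Pool.Agent.QSB.H20
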